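import Mathlib
import Pool.Agent.Results.MP_24cde2_gt.FreeTVS

/-!
# If one level `sp_m(X)`, `m ≥ 2`, of the free topological vector space over a metrizable space is
a `k`-space, then all levels are
-/

set_option autoImplicit false

open Set Topology Filter

universe u v

namespace Pool.Agent.Results.MP_7b06ad_gt.AllLevels

open Pool.Agent.Results.MP_24cde2_gt.FreeTVS

/-- A closed subset (of the ambient Hausdorff space) of a `k`-space is a `k`-space. -/
lemma isKSpace_of_subset {V : Type u} [TopologicalSpace V] [T2Space V] {A B : Set V}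
    (hA : IsClosed A) (hAB : A ⊆ B) (hB : IsKSpace B) : IsKSpace A := by
  intro C hC
  let C' : Set B := {b | ∃ a : A, a ∈ C ∧ (a : V) = b}
  have h1 : IsClosed C' := by
    refine hB C' fun K hK => ?_
    let L : Set A := {a | ∃ b : B, b ∈ K ∧ (b : V) = a}
    have hL : IsCompact L := by
      rw [Subtype.isCompact_iff]
      have h2 : Subtype.val '' L = A ∩ (Subtype.val '' K) := by
        ext v
        constructor
        · rintro ⟨a, ⟨b, hb, hba⟩, rfl⟩
          exact ⟨a.2, b, hb, hba⟩
        · rintro ⟨hv, b, hb, rfl⟩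
          exact ⟨⟨b, hv⟩, ⟨b, hb, rfl⟩, rfl⟩
      rw [h2]
      exact (hK.image continuous_subtype_val).inter_left hA
    have h3 : IsCompact (C ∩ L) := by
      have h4 := hC _ hL
      have h5 : IsCompact (Subtype.val ⁻¹' C : Set L) := by
        have : CompactSpace L := isCompact_iff_compactSpace.1 hL
        exact h4.isCompact
      have h6 := h5.image continuous_subtype_val
      rwa [Subtype.image_preimage_coe, inter_comm] at h6
    have h7 : IsClosed (Subtype.val '' (C ∩ L) : Set V) :=
      (h3.image continuous_subtype_val).isClosed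
    have h8 : (Subtype.val ⁻¹' C' : Set K) =
        (fun k : K => ((k : B) : V)) ⁻¹' (Subtype.val '' (C ∩ L) : Set V) := by
      ext k
      constructor
      · rintro ⟨a, ha, hak⟩
        exact ⟨a, ⟨ha, k, k.2, hak.symm⟩, hak⟩
      · rintro ⟨a, ⟨ha, -⟩, hak⟩
        exact ⟨a, ha, hak⟩
    rw [h8]
    exact h7.preimage (continuous_subtype_val.comp continuous_subtype_val)
  have h9 : C = (Set.inclusion hAB) ⁻¹' C' := by
    ext a
    constructor
    · intro ha
      exact ⟨a, ha, rfl⟩
    · rintro ⟨a', ha', h⟩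
      have : a' = a := Subtype.ext h
      rwa [← this]
  rw [h9]
  exact h1.preimage (continuous_inclusion hAB)

variable {X V : Type u} [TopologicalSpace X] [AddCommGroup V] [Module ℝ V] [TopologicalSpace V]
  {i : X → V}

omit [TopologicalSpace X] [TopologicalSpace V] in
/-- One term with a large coefficient is a sum of terms with small coefficients. -/
lemma smul_mem {n : ℕ} (c : ℝ) (hn : 0 < n) (x : X) :
    c • i x ∈ spc i univ (n : ℝ) ⌈|c| / n⌉₊ := by
  rcases eq_or_ne c 0 with rfl | hc
  · rw [zero_smul]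
    exact zero_mem_spc (S := univ) (Nat.cast_nonneg n) ⟨x, mem_univ x⟩ _
  have hn' : (0 : ℝ) < n := by exact_mod_cast hn
  have hpos : 0 < |c| / n := div_pos (abs_pos.2 hc) hn'
  set k := ⌈|c| / n⌉₊ with hk
  have hk0 : 0 < k := Nat.ceil_pos.2 hpos
  have hk0' : (0 : ℝ) < k := by exact_mod_cast hk0
  have h1 : |c| / n ≤ k := Nat.le_ceil _
  refine ⟨fun _ => c / k, fun _ => x, fun j => ?_, fun _ => trivial, ?_⟩
  · refine abs_le.1 ?_
    rw [abs_div, abs_of_pos hk0', div_le_iff₀ hk0']
    rw [div_le_iff₀ hn'] at h1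
    linarith
  · rw [Finset.sum_const, Finset.card_univ, Fintype.card_fin, ← Nat.cast_smul_eq_nsmul ℝ, smul_smul]
    congr 1
    field_simp

omit [TopologicalSpace X] [TopologicalSpace V] in
lemma sum_mem {n : ℕ} (hn : 0 < n) (c : X → ℝ) (s : Finset X) (hX : Nonempty X) :
    ∑ x ∈ s, c x • i x ∈ spc i univ (n : ℝ) (∑ x ∈ s, ⌈|c x| / n⌉₊) := by
  classical
  induction s using Finset.induction_on with
  | empty =>
    simpa using zero_mem_spc (i := i) (S := univ) (Nat.cast_nonneg n) ⟨hX.some, mem_univ _⟩ 0
  | insert a s ha ih =>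
    rw [Finset.sum_insert ha, Finset.sum_insert ha]
    exact add_mem_spc (smul_mem (c a) hn a) ih

/-- The levels are closed. -/
theorem isClosed_sp [T4Space X] (h : IsFreeTVS i) {n : ℕ} (hn : 0 < n) : IsClosed (sp i n) := by
  classical
  have := h.isTopologicalAddGroup
  have := h.continuousSMul
  have := h.t2Space
  have hn' : (0 : ℝ) < n := by exact_mod_cast hn
  rw [← isOpen_compl_iff, isOpen_iff_mem_nhds]
  intro v hv
  rcases isEmpty_or_nonempty X with hX | hX
  · have hsub : Subsingleton V := by
      have h3 := span_eq_top h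
      rw [range_eq_empty, Submodule.span_empty] at h3
      exact (Submodule.subsingleton_iff ℝ).1 (subsingleton_of_bot_eq_top h3)
    have h4 : (sp i n)ᶜ = univ := by
      ext w
      simp only [mem_univ, iff_true]
      rwa [Subsingleton.elim w v]
    rw [h4]
    exact univ_mem
  have hv1 : v ∈ Submodule.span ℝ (range i) := by rw [span_eq_top h]; trivial
  obtain ⟨c, rfl⟩ := (Finsupp.mem_span_range_iff_exists_finsupp).1 hv1
  set k : X → ℕ := fun x => ⌈|c x| / n⌉₊ with hk
  have hlt : n < ∑ x ∈ c.support, k x := by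
    by_contra hle
    rw [not_lt] at hle
    refine hv ?_
    rw [sp_eq]
    exact spc_mono (subset_refl univ) ⟨hX.some, mem_univ _⟩ le_rfl hn'.le hle
      (sum_mem hn c c.support hX)
  obtain ⟨U, hU, hUd⟩ := c.support.finite_toSet.t2_separation
  have hf : ∀ x, ∃ f : C(X, ℝ), EqOn f 0 (U x)ᶜ ∧ f x = 1 ∧ ∀ y, f y ∈ Icc (0 : ℝ) 1 := by
    intro x
    obtain ⟨f, hf0, hf1, hf2⟩ := exists_continuous_zero_one_of_isClosed
      (s := (U x)ᶜ) (t := {x}) (hU x).2.isClosed_compl isClosed_singleton
      (by simpa using (hU x).1)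
    exact ⟨f, hf0, hf1 rfl, hf2⟩
  choose f hf0 hf1 hf2 using hf
  choose F hF using fun x => exists_lift h (f x) (f x).continuous
  have hFv : ∀ x ∈ c.support, F x (c.sum fun y a => a • i y) = c x := by
    intro x hx
    rw [Finsupp.sum, map_sum, Finset.sum_eq_single x]
    · rw [map_smul, hF, hf1, smul_eq_mul, mul_one]
    · intro y hy hyx
      have h1 : y ∈ (U x)ᶜ := fun h2 =>
        Set.disjoint_left.1 (hUd hx hy hyx.symm) h2 (hU y).1
      rw [map_smul, hF, hf0 x h1]
      simp
    · intro hx'
      exact absurd hx hx'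
  have hW : ∀ x ∈ c.support, ∀ᶠ w in 𝓝 (c.sum fun y a => a • i y),
      (n : ℝ) * ((k x : ℝ) - 1) < |F x w| := by
    intro x hx
    have h1 : Continuous fun w => |F x w| := (F x).continuous.abs
    refine h1.tendsto _ |>.eventually (lt_mem_nhds ?_)
    rw [hFv x hx]
    have h2 := Nat.ceil_lt_add_one (a := |c x| / n) (by positivity)
    have h3 : (k x : ℝ) - 1 < |c x| / n := by
      simp only [hk]
      linarith
    rw [lt_div_iff₀ hn'] at h3
    linarith
  have hW' := (Filter.eventually_all_finset c.support).2 hW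
  filter_upwards [hW'] with w hw hwn
  obtain ⟨l, y, hl, rfl⟩ := hwn
  have hcard : ∀ x ∈ c.support, k x ≤ (Finset.univ.filter fun j : Fin n => y j ∈ U x).card := by
    intro x hx
    have h1 := hw x hx
    have h2 : |F x (∑ j, l j • i (y j))| ≤
        n * ((Finset.univ.filter fun j : Fin n => y j ∈ U x).card : ℝ) := by
      rw [map_sum]
      calc |∑ j, F x (l j • i (y j))| ≤ ∑ j, |F x (l j • i (y j))| :=
            Finset.abs_sum_le_sum_abs _ _
        _ ≤ ∑ j, (if y j ∈ U x then (n : ℝ) else 0) := by
            refine Finset.sum_le_sum fun j _ => ?_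
            rw [map_smul, hF, smul_eq_mul, abs_mul]
            split_ifs with hj
            · have h3 := abs_le.2 (hl j)
              have h4 : |f x (y j)| ≤ 1 := by
                rw [abs_of_nonneg (hf2 x _).1]
                exact (hf2 x _).2
              calc |l j| * |f x (y j)| ≤ n * 1 := mul_le_mul h3 h4 (abs_nonneg _) hn'.le
                _ = n := mul_one _
            · rw [hf0 x hj]
              simp
        _ = n * ((Finset.univ.filter fun j : Fin n => y j ∈ U x).card : ℝ) := by
            rw [← Finset.sum_filter, Finset.sum_const, nsmul_eq_mul, mul_comm]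
    have h5 := h1.trans_le h2
    have h6 := lt_of_mul_lt_mul_left h5 hn'.le
    have h7 : (k x : ℝ) < (Finset.univ.filter fun j : Fin n => y j ∈ U x).card + 1 := by
      linarith
    have h8 : k x < (Finset.univ.filter fun j : Fin n => y j ∈ U x).card + 1 := by
      exact_mod_cast h7
    omega
  have hsum : ∑ x ∈ c.support, k x ≤ n := by
    calc ∑ x ∈ c.support, k x
        ≤ ∑ x ∈ c.support, (Finset.univ.filter fun j : Fin n => y j ∈ U x).card :=
          Finset.sum_le_sum hcard
      _ = (c.support.biUnion fun x => Finset.univ.filter fun j : Fin n => y j ∈ U x).card := by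
          rw [Finset.card_biUnion]
          intro x hx x' hx' hxx'
          rw [Function.onFun, Finset.disjoint_left]
          intro j hj hj'
          rw [Finset.mem_filter] at hj hj'
          exact Set.disjoint_left.1 (hUd hx hx' hxx') hj.2 hj'.2
      _ ≤ (Finset.univ : Finset (Fin n)).card := Finset.card_le_card (Finset.subset_univ _)
      _ = n := by simp
  omega

omit [TopologicalSpace X] [TopologicalSpace V] in
lemma sp_subset {m n : ℕ} (hm : 0 < m) (hmn : m ≤ n) : sp i m ⊆ sp i n := by
  intro v hv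
  have hX : Nonempty X := by
    obtain ⟨-, x, -⟩ := hv
    exact ⟨x ⟨0, hm⟩⟩
  rw [sp_eq] at hv ⊢
  exact spc_mono (subset_refl univ) ⟨hX.some, mem_univ _⟩ (by exact_mod_cast hmn)
    (Nat.cast_nonneg n) hmn hv

/-- The answer to Q1 is yes, for every level `m ≥ 2` in place of `4`. -/
theorem result :
    (∀ (X : Type u) [TopologicalSpace X] [T35Space X], ∃ (V : Type u) (_ : AddCommGroup V)
      (_ : Module ℝ V) (_ : TopologicalSpace V) (i : X → V), IsFreeTVS i) ∧
    (∀ (X V : Type u) [TopologicalSpace X] [TopologicalSpace.MetrizableSpace X]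
      [AddCommGroup V] [Module ℝ V] [TopologicalSpace V] (i : X → V), IsFreeTVS i →
      ∀ m : ℕ, 2 ≤ m → IsKSpace (sp i m) →
        (∀ n : ℕ, IsKSpace (sp i n)) ∧ IsKSpace V ∧
          LocallyCompactSpace X ∧ SecondCountableTopology X) := by
  refine ⟨Pool.Agent.Results.MP_24cde2_gt.FreeTVS.result.1, ?_⟩
  intro X V _ _ _ _ _ i h m hm hk
  have := h.t2Space
  let _ : MetricSpace X := TopologicalSpace.metrizableSpaceMetric X
  obtain ⟨-, h2, h3, h4, h5⟩ := Pool.Agent.Results.MP_24cde2_gt.FreeTVS.result.2 X V i h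
    (isKSpace_of_subset (isClosed_sp h (by norm_num)) (sp_subset (by norm_num) hm) hk)
  exact ⟨h3, h2, h4, h5⟩

end Pool.Agent.Results.MP_7b06ad_gt.AllLevels
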