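import Mathlib
import Pool.Agent.R819.FreeTVS
import Pool.Agent.R819.FreeTVS2

/-!
MP_7b06ad_gt, Q1 (positive answer).

Let `X` be metrizable and let `(V, i)` be a free topological vector space over `X`. If some level
`sp_m(X)` with `m ≥ 2` (for instance `sp_4(X)`) is a k-space, then `X` is locally compact and
separable, hence `V` is a `k_ω`-space and every level `sp_n(X)` is a (closed) k-space.
-/

namespace Pool.Agent.Results.MP_7b06ad_gt.LevelTwo

open TopologicalSpace Pool.Agent.R819.FreeTVS

theorem result (X V : Type) [TopologicalSpace X] [MetrizableSpace X] [AddCommGroup V]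
    [Module ℝ V] [TopologicalSpace V] (i : X → V) (h : IsFreeTVS i) :
    (KSpace (sp i 4) → ∀ n, KSpace (sp i n)) ∧
    (∀ m, 2 ≤ m → (KSpace (sp i m) ↔ LocallyCompactSpace X ∧ SeparableSpace X)) ∧
    (LocallyCompactSpace X ∧ SeparableSpace X →
      KOmegaSpace V ∧ KSpace V ∧ ∀ n, IsClosed (sp i n) ∧ KSpace (sp i n)) := by
  have h2 : SeparableSpace X → SecondCountableTopology X := by
    intro hs
    let _ : MetricSpace X := metrizableSpaceMetric X
    exact UniformSpace.secondCountable_of_separable X
  have h3 : LocallyCompactSpace X ∧ SeparableSpace X →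
      KOmegaSpace V ∧ KSpace V ∧ ∀ n, IsClosed (sp i n) ∧ KSpace (sp i n) := by
    rintro ⟨hlc, hs⟩
    have := h2 hs
    exact main_metrizable h
  have h1 : ∀ m, 2 ≤ m → (KSpace (sp i m) ↔ LocallyCompactSpace X ∧ SeparableSpace X) := by
    intro m hm
    constructor
    · intro hk
      have := separable_of_kSpace h hm hk
      exact ⟨locallyCompact_of_kSpace h hm hk, inferInstance⟩
    · intro hX
      exact ((h3 hX).2.2 m).2
  exact ⟨fun hk n => ((h3 ((h1 4 (by norm_num)).1 hk)).2.2 n).2, h1, h3⟩

end Pool.Agent.Results.MP_7b06ad_gt.LevelTwo
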